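import Pool.Agent.Helper9.K3.Dense
import Pool.Agent.Helper9.GWA.Final

/-!
# From the affine open subset to the smooth projective K3 surface
-/

namespace KumK3

open NumberField IsDedekindDomain GWA

theorem exists_one_lt_adic {K : Type} [Field K] [NumberField K] (v : HeightOneSpectrum (𝓞 K)) :
    ∃ x : v.adicCompletion K, 1 < ‖x‖ := by
  obtain ⟨x, hx, hx0⟩ := Submodule.exists_mem_ne_zero_of_ne_bot v.ne_bot
  refine ⟨(FinitePlace.embedding v (algebraMap (𝓞 K) K x))⁻¹, ?_⟩
  have h1 := (FinitePlace.norm_lt_one_iff_mem K v x).2 hx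
  rw [norm_inv]
  refine (one_lt_inv₀ ?_).2 h1
  rw [norm_pos_iff, ne_eq, map_eq_zero]
  exact (map_ne_zero_iff _ (FaithfulSMul.algebraMap_injective (𝓞 K) K)).2 hx0

theorem exists_one_lt_inf {K : Type} [Field K] [NumberField K] (w : InfinitePlace K) :
    ∃ x : w.Completion, 1 < ‖x‖ := by
  refine ⟨algebraMap K w.Completion 2, ?_⟩
  have h1 : ‖algebraMap K w.Completion 2‖ = w (2 : K) := InfinitePlace.Completion.norm_coe w _
  rw [h1, ← w.norm_embedding_eq, map_ofNat]
  norm_num

theorem dense_X {K : Type} [Field K] [NumberField K]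
    (H : DenseRange (fun u : Pt K => ((fun v : HeightOneSpectrum (𝓞 K) =>
      Pt.map (algebraMap K (v.adicCompletion K)) u), (fun w : InfinitePlace K =>
        Pt.map (algebraMap K w.Completion) u)))) :
    DenseRange (fun p : X K => ((fun v : HeightOneSpectrum (𝓞 K) =>
      X.map (algebraMap K (v.adicCompletion K)) p), (fun w : InfinitePlace K =>
        X.map (algebraMap K w.Completion) p))) := by
  have hz : ∀ v : HeightOneSpectrum (𝓞 K), NeZero (2 : v.adicCompletion K) := by
    intro v
    have := charZero_of_injective_algebraMap (algebraMap K (v.adicCompletion K)).injective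
    infer_instance
  have hz' : ∀ w : InfinitePlace K, NeZero (2 : w.Completion) := by
    intro w
    have := charZero_of_injective_algebraMap (algebraMap K w.Completion).injective
    infer_instance
  have h1 : DenseRange (Pi.map fun (v : HeightOneSpectrum (𝓞 K)) =>
      (emb : Pt (v.adicCompletion K) → X (v.adicCompletion K))) :=
    DenseRange.piMap fun v => dense_emb (exists_one_lt_adic v)
  have h2 : DenseRange (Pi.map fun (w : InfinitePlace K) =>
      (emb : Pt w.Completion → X w.Completion)) :=
    DenseRange.piMap fun w => dense_emb (exists_one_lt_inf w)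
  have h3 := h1.prodMap h2
  have c1 : Continuous (Pi.map fun (v : HeightOneSpectrum (𝓞 K)) =>
      (emb : Pt (v.adicCompletion K) → X (v.adicCompletion K))) :=
    Continuous.piMap fun v => continuous_emb
  have c2 : Continuous (Pi.map fun (w : InfinitePlace K) =>
      (emb : Pt w.Completion → X w.Completion)) :=
    Continuous.piMap fun w => continuous_emb
  have h4 := h3.comp H (c1.prodMap c2)
  refine Dense.mono ?_ h4
  rintro _ ⟨u, rfl⟩
  refine ⟨emb u, ?_⟩
  refine Prod.ext ?_ ?_
  · funext v
    exact map_emb _ u
  · funext w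
    exact map_emb _ u

end KumK3
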