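import Mathlib

/-!
# The smooth projective model of the Kummer surface of `E × E`, `E : y² = x³ - x`

`X` is the surface `s² g(y) = t² g(x)` in the projective bundle `P(O(2,0) ⊕ O(0,2))` over
`P¹ × P¹`, where `g(a, b) = a b (a² - b²)`; `x = (x₀, x₁)`, `y = (y₀, y₁)` are homogeneous
coordinates of the two factors `P¹`, and `(s, t)` those of the fibres.
-/

namespace KumK3

/-- the binary quartic form `g(a, b) = a b (a² - b²)` -/
def g {K : Type*} [Field K] (x : K × K) : K := x.1 * x.2 * (x.1 ^ 2 - x.2 ^ 2)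

/-- homogeneous coordinates `(x, y, (s, t))` of the `K`-points of `X`: three nonzero vectors of
`K²` with `s² g(y) = t² g(x)` -/
def Coord (K : Type*) [Field K] : Type _ :=
  {p : (K × K) × (K × K) × (K × K) // p.1 ≠ 0 ∧ p.2.1 ≠ 0 ∧ p.2.2 ≠ 0 ∧
    p.2.2.1 ^ 2 * g p.2.1 = p.2.2.2 ^ 2 * g p.1}

/-- the topology of `Coord K` as a subspace of `K⁶` -/
instance (K : Type*) [Field K] [TopologicalSpace K] : TopologicalSpace (Coord K) :=
  instTopologicalSpaceSubtype

/-- the action of `(l, m, n)` in the torus `(Kˣ)³` on `K⁶`: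
`(x, y, (s, t)) ↦ (l x, m y, (n l² s, n m² t))` -/
def act {K : Type*} [Field K] (l m n : Kˣ) (p : (K × K) × (K × K) × (K × K)) :
    (K × K) × (K × K) × (K × K) :=
  ((l * p.1.1, l * p.1.2), (m * p.2.1.1, m * p.2.1.2), (n * l ^ 2 * p.2.2.1, n * m ^ 2 * p.2.2.2))

/-- coordinates of the same point: those in the same orbit of the torus -/
def Same {K : Type*} [Field K] (p q : Coord K) : Prop := ∃ l m n : Kˣ, q.1 = act l m n p.1

theorem same_equiv (K : Type*) [Field K] : Equivalence (Same (K := K)) where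
  refl := fun p => ⟨1, 1, 1, by simp [act]⟩
  symm := by
    rintro ⟨⟨⟨a, b⟩, ⟨c, d⟩, s, t⟩, hp⟩ ⟨q, hq⟩ ⟨l, m, n, h⟩
    refine ⟨l⁻¹, m⁻¹, n⁻¹, ?_⟩
    simp only [act] at h
    subst h
    have hl := l.ne_zero
    have hm := m.ne_zero
    have hn := n.ne_zero
    simp only [act, Units.val_inv_eq_inv_val]
    refine Prod.ext (Prod.ext ?_ ?_) (Prod.ext (Prod.ext ?_ ?_) (Prod.ext ?_ ?_)) <;>
      simp only <;> field_simp
  trans := by
    rintro ⟨⟨⟨a, b⟩, ⟨c, d⟩, s, t⟩, hp⟩ ⟨q, hq⟩ ⟨r, hr⟩ ⟨l, m, n, h⟩ ⟨l', m', n', h'⟩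
    refine ⟨l' * l, m' * m, n' * n, ?_⟩
    simp only [act] at h h'
    subst h
    subst h'
    refine Prod.ext (Prod.ext ?_ ?_) (Prod.ext (Prod.ext ?_ ?_) (Prod.ext ?_ ?_)) <;>
      simp only [act, Units.val_mul] <;> ring

/-- the equivalence relation `Same` on the coordinates -/
def rel (K : Type*) [Field K] : Setoid (Coord K) := ⟨Same, same_equiv K⟩

/-- the set `X(K)` of `K`-points of `X` -/
def X (K : Type*) [Field K] : Type _ := Quotient (rel K)

/-- the quotient topology on `X(K)` -/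
instance (K : Type*) [Field K] [TopologicalSpace K] : TopologicalSpace (X K) :=
  @instTopologicalSpaceQuotient _ (rel K) _

/-- apply a homomorphism of fields to the coordinates -/
def app {K L : Type*} [Field K] [Field L] (φ : K →+* L) (p : (K × K) × (K × K) × (K × K)) :
    (L × L) × (L × L) × (L × L) :=
  ((φ p.1.1, φ p.1.2), (φ p.2.1.1, φ p.2.1.2), (φ p.2.2.1, φ p.2.2.2))

theorem app_prop {K L : Type*} [Field K] [Field L] (φ : K →+* L) (p : Coord K) :
    (app φ p.1).1 ≠ 0 ∧ (app φ p.1).2.1 ≠ 0 ∧ (app φ p.1).2.2 ≠ 0 ∧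
      (app φ p.1).2.2.1 ^ 2 * g (app φ p.1).2.1 = (app φ p.1).2.2.2 ^ 2 * g (app φ p.1).1 := by
  obtain ⟨⟨⟨a, b⟩, ⟨c, d⟩, s, t⟩, h1, h2, h3, h4⟩ := p
  have key : ∀ u v : K, (u, v) ≠ 0 → (φ u, φ v) ≠ 0 := by
    intro u v h h'
    apply h
    rw [Prod.mk_eq_zero] at h' ⊢
    exact ⟨(map_eq_zero φ).1 h'.1, (map_eq_zero φ).1 h'.2⟩
  refine ⟨key _ _ h1, key _ _ h2, key _ _ h3, ?_⟩
  simp only [g, app] at h4 ⊢
  simpa only [map_mul, map_sub, map_pow] using congrArg φ h4

/-- the map on coordinates given by a homomorphism of fields `K → L` -/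
def Coord.map {K L : Type*} [Field K] [Field L] (φ : K →+* L) (p : Coord K) : Coord L :=
  ⟨app φ p.1, app_prop φ p⟩

theorem same_map {K L : Type*} [Field K] [Field L] (φ : K →+* L) (p q : Coord K) (h : Same p q) :
    Same (Coord.map φ p) (Coord.map φ q) := by
  obtain ⟨p, hp⟩ := p
  obtain ⟨q, hq⟩ := q
  obtain ⟨l, m, n, h⟩ := h
  refine ⟨Units.map φ.toMonoidHom l, Units.map φ.toMonoidHom m, Units.map φ.toMonoidHom n, ?_⟩
  simp only at h
  subst h
  simp [Coord.map, app, act]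

/-- the map `X(K) → X(L)` given by a homomorphism of fields `K → L` -/
def X.map {K L : Type*} [Field K] [Field L] (φ : K →+* L) : X K → X L :=
  Quotient.map (Coord.map φ) (same_map φ)

end KumK3
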