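import Pool.Agent.Helper9.K3.Defs
import Pool.Agent.Helper15.WA.Defs

/-!
# The open subset `z ≠ 0` is dense in the local points of the K3 surface
-/

namespace KumK3

open Topology Filter GWA

section top

variable {K : Type*} [Field K]

/-- the coordinates of the image of an affine point -/
def emb0 (u : Pt K) : Coord K :=
  ⟨((u.x, 1), (u.y, 1), (u.z, ff u.y)), by
    refine ⟨?_, ?_, ?_, ?_⟩
    · intro h; exact one_ne_zero (congrArg Prod.snd h)
    · intro h; exact one_ne_zero (congrArg Prod.snd h)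
    · intro h; exact u.hz (congrArg Prod.fst h)
    · have h1 : ∀ t : K, g (t, 1) = ff t := by intro t; unfold g ff; ring
      change u.z ^ 2 * g (u.y, 1) = ff u.y ^ 2 * g (u.x, 1)
      rw [h1, h1, u.eqn]; ring⟩

/-- the embedding of the affine open subset in `X` -/
def emb (u : Pt K) : X K := Quotient.mk (rel K) (emb0 u)

theorem map_emb {L : Type*} [Field L] (φ : K →+* L) (u : Pt K) :
    X.map φ (emb u) = emb (Pt.map φ u) := by
  change Quotient.mk (rel L) (Coord.map φ (emb0 u)) = Quotient.mk (rel L) (emb0 (Pt.map φ u))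
  congr 1
  apply Subtype.ext
  change ((φ u.x, φ 1), (φ u.y, φ 1), (φ u.z, φ (ff u.y))) =
    ((φ u.x, 1), (φ u.y, 1), (φ u.z, ff (φ u.y)))
  rw [map_one, map_ff]

theorem continuous_emb [TopologicalSpace K] [IsTopologicalRing K] : Continuous (emb (K := K)) := by
  have hq : Continuous (Quotient.mk (rel K)) := continuous_coinduced_rng
  refine hq.comp ?_
  refine Continuous.subtype_mk ?_ _
  have h : Continuous fun u : Pt K => (u.1 : K × K × K) := continuous_subtype_val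
  have hx : Continuous fun u : Pt K => u.x := h.fst
  have hy : Continuous fun u : Pt K => u.y := h.snd.fst
  have hz : Continuous fun u : Pt K => u.z := h.snd.snd
  have hf : Continuous fun u : Pt K => ff u.y := by
    unfold ff
    exact (hy.pow 3).sub hy
  exact (hx.prodMk continuous_const).prodMk ((hy.prodMk continuous_const).prodMk (hz.prodMk hf))

/-- coordinates with `g(x) ≠ 0`, `g(y) ≠ 0` are those of an affine point -/
theorem exists_emb (p : Coord K) (hx : g p.1.1 ≠ 0) (hy : g p.1.2.1 ≠ 0) :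
    ∃ u : Pt K, emb u = Quotient.mk (rel K) p := by
  obtain ⟨⟨⟨a, b⟩, ⟨c, d⟩, s, t⟩, h1, h2, h3, h4⟩ := p
  simp only at hx hy h1 h2 h3 h4
  have hb : b ≠ 0 := by
    rintro rfl
    apply hx; simp [g]
  have hd : d ≠ 0 := by
    rintro rfl
    apply hy; simp [g]
  have ht : t ≠ 0 := by
    rintro rfl
    have h5 : s ^ 2 * g (c, d) = 0 := by rw [h4]; ring
    rcases mul_eq_zero.1 h5 with h6 | h6
    · have : s = 0 := by simpa using h6
      exact h3 (by rw [this]; rfl)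
    · exact hy h6
  have hs : s ≠ 0 := by
    rintro rfl
    have h5 : t ^ 2 * g (a, b) = 0 := by rw [← h4]; ring
    rcases mul_eq_zero.1 h5 with h6 | h6
    · exact ht (by simpa using h6)
    · exact hx h6
  have e1 : g (a, b) = b ^ 4 * ff (a / b) := by unfold g ff; field_simp
  have e2 : g (c, d) = d ^ 4 * ff (c / d) := by unfold g ff; field_simp
  have hfc : ff (c / d) ≠ 0 := by
    intro h; apply hy; rw [e2, h, mul_zero]
  set n : K := ff (c / d) * d ^ 2 / t with hn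
  have hn0 : n ≠ 0 := div_ne_zero (mul_ne_zero hfc (pow_ne_zero 2 hd)) ht
  refine ⟨⟨(a / b, c / d, n * b⁻¹ ^ 2 * s), ?_, ?_⟩, ?_⟩
  · simp only
    rw [e1, e2] at h4
    rw [hn]
    field_simp
    linear_combination h4
  · simp only
    exact mul_ne_zero (mul_ne_zero hn0 (pow_ne_zero 2 (inv_ne_zero hb))) hs
  · apply Eq.symm
    apply Quotient.sound
    refine ⟨Units.mk0 b⁻¹ (inv_ne_zero hb), Units.mk0 d⁻¹ (inv_ne_zero hd), Units.mk0 n hn0, ?_⟩
    change ((a / b, 1), (c / d, 1), (n * b⁻¹ ^ 2 * s, ff (c / d))) =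
      ((b⁻¹ * a, b⁻¹ * b), (d⁻¹ * c, d⁻¹ * d), (n * b⁻¹ ^ 2 * s, n * d⁻¹ ^ 2 * t))
    refine Prod.ext (Prod.ext ?_ ?_) (Prod.ext (Prod.ext ?_ ?_) (Prod.ext ?_ ?_))
    · simp only; field_simp
    · simp only; field_simp
    · simp only; field_simp
    · simp only; field_simp
    · rfl
    · simp only
      rw [hn]; field_simp

end top

section normed

variable {K : Type*} [NormedField K] [CompleteSpace K] [NeZero (2 : K)]

/-- `g` is open at every nonzero vector with `g(x) = 0` -/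
theorem g_open (hnt : ∃ x : K, 1 < ‖x‖) {x : K × K} (hx : x ≠ 0) (hg : g x = 0)
    {N : Set (K × K)} (hN : N ∈ 𝓝 x) : ∀ᶠ c in 𝓝 (0 : K), ∃ x' ∈ N, g x' = c := by
  let _ : NontriviallyNormedField K := { (inferInstance : NormedField K) with non_trivial := hnt }
  obtain ⟨a, b⟩ := x
  have h2 : (2 : K) ≠ 0 := two_ne_zero
  -- the two partial derivatives
  have key1 : (3 * a ^ 2 * b - b ^ 3 ≠ 0) → ∀ᶠ c in 𝓝 (0 : K), ∃ x' ∈ N, g x' = c := by
    intro hne
    have hd : HasStrictDerivAt (fun u : K => g (u, b)) (3 * a ^ 2 * b - b ^ 3) a := by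
      have h1 : HasStrictDerivAt (fun u : K => u ^ 3 * b - u * b ^ 3)
          (3 * a ^ 2 * b - b ^ 3) a := by
        have h3 := ((hasStrictDerivAt_pow 3 a).mul_const b).sub
          ((hasStrictDerivAt_id a).mul_const (b ^ 3))
        refine h3.congr_deriv ?_
        push_cast; ring
      convert h1 using 2
      unfold g; ring
    have hm := hd.map_nhds_eq hne
    simp only [hg] at hm
    have hN' : (fun u : K => (u, b)) ⁻¹' N ∈ 𝓝 a :=
      (Continuous.prodMk continuous_id continuous_const).continuousAt.preimage_mem_nhds hN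
    rw [← hm]
    filter_upwards [Filter.image_mem_map hN'] with c hc
    obtain ⟨u, hu, rfl⟩ := hc
    exact ⟨(u, b), hu, rfl⟩
  have key2 : (a ^ 3 - 3 * a * b ^ 2 ≠ 0) → ∀ᶠ c in 𝓝 (0 : K), ∃ x' ∈ N, g x' = c := by
    intro hne
    have hd : HasStrictDerivAt (fun u : K => g (a, u)) (a ^ 3 - 3 * a * b ^ 2) b := by
      have h1 : HasStrictDerivAt (fun u : K => a ^ 3 * u - a * u ^ 3)
          (a ^ 3 - 3 * a * b ^ 2) b := by
        have h3 := ((hasStrictDerivAt_id b).const_mul (a ^ 3)).sub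
          ((hasStrictDerivAt_pow 3 b).const_mul a)
        refine h3.congr_deriv ?_
        push_cast; ring
      convert h1 using 2
      unfold g; ring
    have hm := hd.map_nhds_eq hne
    simp only [hg] at hm
    have hN' : (fun u : K => (a, u)) ⁻¹' N ∈ 𝓝 b :=
      (Continuous.prodMk continuous_const continuous_id).continuousAt.preimage_mem_nhds hN
    rw [← hm]
    filter_upwards [Filter.image_mem_map hN'] with c hc
    obtain ⟨u, hu, rfl⟩ := hc
    exact ⟨(a, u), hu, rfl⟩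
  by_cases h3 : a ^ 3 - 3 * a * b ^ 2 = 0
  · apply key1
    intro h4
    have h5 : a * b * (a ^ 2 - b ^ 2) = 0 := hg
    apply hx
    rcases mul_eq_zero.1 h5 with h5 | h5
    · rcases mul_eq_zero.1 h5 with rfl | rfl
      · have : b = 0 := by
          have : b ^ 3 = 0 := by linear_combination -h4
          simpa using this
        rw [this]; rfl
      · have : a = 0 := by
          have : a ^ 3 = 0 := by linear_combination h3
          simpa using this
        rw [this]; rfl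
    · have h6 : (2 : K) * b ^ 3 = 0 := by linear_combination h4 - 3 * b * h5
      have hb : b = 0 := by
        rcases mul_eq_zero.1 h6 with h6 | h6
        · exact absurd h6 h2
        · simpa using h6
      subst hb
      have : a = 0 := by
        have : a ^ 2 = 0 := by linear_combination h5
        simpa using this
      rw [this]; rfl
  · exact key2 h3

omit [CompleteSpace K] [NeZero (2 : K)] in
theorem exists_ne (hnt : ∃ x : K, 1 < ‖x‖) (s : K) {P : K → Prop} (hP : ∀ᶠ c in 𝓝 s, P c)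
    (b : K) : ∃ c, P c ∧ c ≠ b := by
  let _ : NontriviallyNormedField K := { (inferInstance : NormedField K) with non_trivial := hnt }
  by_cases hb : s = b
  · subst hb
    have h1 : ∀ᶠ c in 𝓝[≠] s, P c := hP.filter_mono nhdsWithin_le_nhds
    obtain ⟨c, h2, h3⟩ := (h1.and self_mem_nhdsWithin).exists
    exact ⟨c, h2, h3⟩
  · exact ⟨s, hP.self_of_nhds, hb⟩

theorem exists_g_ne (hnt : ∃ x : K, 1 < ‖x‖) {y : K × K} (hy : y ≠ 0) {N : Set (K × K)}
    (hN : N ∈ 𝓝 y) : ∃ y' ∈ N, g y' ≠ 0 := by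
  by_cases hg : g y = 0
  · obtain ⟨c, ⟨y', hy', hc⟩, h0⟩ := exists_ne hnt 0 (g_open hnt hy hg hN) 0
    exact ⟨y', hy', by rw [hc]; exact h0⟩
  · exact ⟨y, mem_of_mem_nhds hN, hg⟩

omit [CompleteSpace K] [NeZero (2 : K)] in
theorem continuous_g : Continuous (g (K := K)) := by
  unfold g
  fun_prop

theorem good_aux (hnt : ∃ x : K, 1 < ‖x‖) {x y : K × K} {s t : K} (hx : x ≠ 0) (hy : y ≠ 0)
    (ht : t ≠ 0) (he : s ^ 2 * g y = t ^ 2 * g x) {Nx Ny : Set (K × K)} {Ns : Set K}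
    (hNx : Nx ∈ 𝓝 x) (hNy : Ny ∈ 𝓝 y) (hNs : Ns ∈ 𝓝 s) :
    ∃ x' ∈ Nx, ∃ y' ∈ Ny, ∃ s' ∈ Ns, g x' ≠ 0 ∧ g y' ≠ 0 ∧ s' ^ 2 * g y' = t ^ 2 * g x' := by
  by_cases hg : g x = 0
  · have h1 := g_open hnt hx hg hNx
    have hc : Continuous fun q : K × (K × K) => q.1 ^ 2 * g q.2 / t ^ 2 :=
      ((continuous_fst.pow 2).mul (continuous_g.comp continuous_snd)).div_const _
    have h2 : Tendsto (fun q : K × (K × K) => q.1 ^ 2 * g q.2 / t ^ 2) (𝓝 (s, y)) (𝓝 0) := by
      have h3 := hc.tendsto (s, y)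
      simp only at h3
      rwa [he, hg, mul_zero, zero_div] at h3
    have h3 := h2.eventually h1
    rw [nhds_prod_eq, eventually_prod_iff] at h3
    obtain ⟨pa, hpa, pb, hpb, h4⟩ := h3
    obtain ⟨s', ⟨h5, h6⟩, hs'⟩ := exists_ne hnt s (hpa.and hNs) 0
    obtain ⟨y', ⟨h7, h8⟩, hy'⟩ := exists_g_ne hnt hy (Filter.inter_mem hpb hNy)
    obtain ⟨x', hx', hgx⟩ := h4 h5 h7
    simp only at hgx
    refine ⟨x', hx', y', h8, s', h6, ?_, hy', ?_⟩
    · rw [hgx]
      exact div_ne_zero (mul_ne_zero (pow_ne_zero 2 hs') hy') (pow_ne_zero 2 ht)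
    · rw [hgx]
      field_simp
  · refine ⟨x, mem_of_mem_nhds hNx, y, mem_of_mem_nhds hNy, s, mem_of_mem_nhds hNs, hg, ?_, he⟩
    intro h
    rw [h, mul_zero] at he
    exact mul_ne_zero (pow_ne_zero 2 ht) hg he.symm

theorem good_near (hnt : ∃ x : K, 1 < ‖x‖) (p : Coord K) {N : Set (Coord K)} (hN : N ∈ 𝓝 p) :
    ∃ q ∈ N, g q.1.1 ≠ 0 ∧ g q.1.2.1 ≠ 0 := by
  obtain ⟨⟨x, y, s, t⟩, h1, h2, h3, h4⟩ := p
  obtain ⟨N', hN', hNN⟩ := (mem_nhds_subtype _ _ _).1 hN
  simp only at h1 h2 h3 h4 hN'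
  obtain ⟨Nx, hNx, M, hM, hM'⟩ := mem_nhds_prod_iff.1 hN'
  obtain ⟨Ny, hNy, M₂, hM₂, hM₂'⟩ := mem_nhds_prod_iff.1 hM
  obtain ⟨Ns, hNs, Nt, hNt, hst⟩ := mem_nhds_prod_iff.1 hM₂
  have hNx' : Nx ∩ {0}ᶜ ∈ 𝓝 x := Filter.inter_mem hNx (isOpen_compl_singleton.mem_nhds h1)
  have hNy' : Ny ∩ {0}ᶜ ∈ 𝓝 y := Filter.inter_mem hNy (isOpen_compl_singleton.mem_nhds h2)
  by_cases ht : t = 0
  · have hs : s ≠ 0 := by
      rintro rfl
      apply h3; rw [ht]; rfl
    obtain ⟨y', hy', x', hx', t', ht', hgy, hgx, he⟩ :=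
      good_aux hnt h2 h1 hs h4.symm hNy' hNx' hNt
    refine ⟨⟨(x', y', s, t'), hx'.2, hy'.2, ?_, he.symm⟩, hNN ?_, hgx, hgy⟩
    · intro h; exact hs (congrArg Prod.fst h)
    · exact hM' ⟨hx'.1, hM₂' ⟨hy'.1, hst ⟨mem_of_mem_nhds hNs, ht'⟩⟩⟩
  · obtain ⟨x', hx', y', hy', s', hs', hgx, hgy, he⟩ :=
      good_aux hnt h1 h2 ht h4 hNx' hNy' hNs
    refine ⟨⟨(x', y', s', t), hx'.2, hy'.2, ?_, he⟩, hNN ?_, hgx, hgy⟩
    · intro h; exact ht (congrArg Prod.snd h)
    · exact hM' ⟨hx'.1, hM₂' ⟨hy'.1, hst ⟨hs', mem_of_mem_nhds hNt⟩⟩⟩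

/-- the affine open subset is dense in the local points of the K3 surface -/
theorem dense_emb (hnt : ∃ x : K, 1 < ‖x‖) : DenseRange (emb (K := K)) := by
  intro x
  obtain ⟨p, rfl⟩ := Quotient.exists_rep x
  rw [mem_closure_iff_nhds]
  intro V hV
  have hq : Continuous (Quotient.mk (rel K)) := continuous_coinduced_rng
  have h1 : Quotient.mk (rel K) ⁻¹' V ∈ 𝓝 p := hq.continuousAt.preimage_mem_nhds hV
  obtain ⟨q, hqV, hx, hy⟩ := good_near hnt p h1
  obtain ⟨u, hu⟩ := exists_emb q hx hy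
  exact ⟨emb u, by rw [hu]; exact hqV, ⟨u, rfl⟩⟩

end normed

end KumK3
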